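import Pool.Agent.Q207.GP.C

/-!
# Project GP: invariants of degree two
-/

set_option autoImplicit false
set_option linter.unusedSectionVars false

open Matrix Finset

namespace Q207.GP

open Q207.HT (lieA lieA_apply InvL)
open Q207.HG (hB)
open Q207.GH (Hs lieA_two mem_hB_of)

section

variable {k : ℕ} {n : Fin k → ℕ}

lemma mem_Hs {B : ∀ i, Matrix (Fin (n i)) (Fin (n i)) ℂ} (hB2 : ∀ i, IsUnit (B i).det)
    {X : Matrix (Σ i, Fin (n i)) (Σ i, Fin (n i)) ℂ} (h1 : ∀ x y, x.1 ≠ y.1 → X x y = 0)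
    (h2 : Xᵀ * blockDiagonal' B + blockDiagonal' B * X = 0) : X ∈ Hs B := by
  set Y : ∀ j, Matrix (Fin (n j)) (Fin (n j)) ℂ := fun j => Matrix.of fun a b => X ⟨j, a⟩ ⟨j, b⟩ with hY
  have h3 : X = blockDiagonal' Y := by
    ext ⟨i, a⟩ ⟨j, b⟩
    by_cases h : i = j
    · subst h
      rw [blockDiagonal'_apply_eq]
      rfl
    · rw [blockDiagonal'_apply_ne _ _ _ h]
      exact h1 _ _ h
  refine ⟨Y, fun j => mem_hB_of (hB2 j) ?_, h3⟩
  rw [h3, blockDiagonal'_transpose, ← blockDiagonal'_mul, ← blockDiagonal'_mul, ← blockDiagonal'_add] at h2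
  exact congrFun (blockDiagonal'_injective (h2.trans blockDiagonal'_zero.symm)) j

theorem inv2' {B : ∀ i, Matrix (Fin (n i)) (Fin (n i)) ℂ} (hB2 : ∀ i, IsUnit (B i).det)
    (hB1 : ∀ i, (B i)ᵀ = -B i ∨ ((B i)ᵀ = B i ∧ 3 ≤ n i)) {v : (Fin 2 → Σ i, Fin (n i)) → ℂ} (hv : InvL (Hs B) v) :
    ∃ c : Fin k → ℂ, ∀ p : Fin 2 → Σ i, Fin (n i), v p = c (p 0).1 * blockDiagonal' (fun i => (B i)⁻¹) (p 0) (p 1) := by
  classical
  set M : Matrix (Σ i, Fin (n i)) (Σ i, Fin (n i)) ℂ := Matrix.of fun a b => v ![a, b] with hM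
  have hvM : v = fun p => M (p 0) (p 1) := by
    funext p
    show v p = v ![p 0, p 1]
    congr 1
    funext i
    fin_cases i <;> rfl
  set Bh := blockDiagonal' B with hBh
  have hBne : ∀ x y : Σ i, Fin (n i), x.1 ≠ y.1 → Bh x y = 0 := by
    rintro ⟨i, a⟩ ⟨j, b⟩ h
    exact blockDiagonal'_apply_ne _ _ _ h
  set P := Bh * M with hP
  set D := M * Bh with hD
  -- the basic relation
  have key : ∀ (s : ℂ), s * s = 1 → ∀ x y : Σ i, Fin (n i), x.1 = y.1 → (∀ u, Bh x u = -s * Bh u x) → (∀ u, Bh y u = -s * Bh u y) →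
      ∀ c d, (if c = x then P y d else 0) + s * (if c = y then P x d else 0) =
        (if d = y then D c x else 0) + s * (if d = x then D c y else 0) := by
    intro s hs x y hxy hx hy c d
    set A : Matrix (Σ i, Fin (n i)) (Σ i, Fin (n i)) ℂ := Matrix.single x y 1 + s • Matrix.single y x 1 with hA
    have e1 : ∀ (N : Matrix (Σ i, Fin (n i)) (Σ i, Fin (n i)) ℂ) (u v w z : Σ i, Fin (n i)),
        (Matrix.single u v (1 : ℂ) * N) w z = if w = u then N v z else 0 := by
      intro N u v w z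
      by_cases h : w = u
      · subst h
        rw [if_pos rfl, Matrix.single_mul_apply_same, one_mul]
      · rw [if_neg h, Matrix.single_mul_apply_of_ne _ _ _ _ _ h]
    have e2 : ∀ (N : Matrix (Σ i, Fin (n i)) (Σ i, Fin (n i)) ℂ) (u v w z : Σ i, Fin (n i)),
        (N * Matrix.single u v (1 : ℂ)) w z = if z = v then N w u else 0 := by
      intro N u v w z
      by_cases h : z = v
      · subst h
        rw [if_pos rfl, Matrix.mul_single_apply_same, mul_one]
      · rw [if_neg h, Matrix.mul_single_apply_of_ne _ _ _ _ _ h]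
    have hAB : ∀ u v, (A * Bh) u v = (if u = x then Bh y v else 0) + s * (if u = y then Bh x v else 0) := by
      intro u v
      rw [hA, Matrix.add_mul, Matrix.smul_mul, Matrix.add_apply, Matrix.smul_apply, e1, e1, smul_eq_mul]
    have hT : (A * Bh)ᵀ = -(Bh * A) := by
      ext u v
      rw [Matrix.transpose_apply, hAB, Matrix.neg_apply, hA, Matrix.mul_add, Matrix.mul_smul, Matrix.add_apply, Matrix.smul_apply,
        e2, e2, smul_eq_mul]
      have h1 := hx u
      have h2 := hy u
      split_ifs with h3 h4 h4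
      · rw [h1, h2]
        linear_combination (-Bh u x) * hs
      · rw [h2]
        ring
      · rw [h1]
        linear_combination (-Bh u x) * hs
      · ring
    have hmem : A * Bh ∈ Hs B := by
      refine mem_Hs hB2 (fun u v huv => ?_) ?_
      · rw [hAB]
        have h3 : (if u = x then Bh y v else 0) = 0 := by
          split_ifs with h
          · refine hBne _ _ ?_
            rw [← hxy, ← h]
            exact huv
          · rfl
        have h4 : (if u = y then Bh x v else 0) = 0 := by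
          split_ifs with h
          · refine hBne _ _ ?_
            rw [hxy, ← h]
            exact huv
          · rfl
        rw [h3, h4]
        ring
      · rw [hT]
        rw [← hBh]
        noncomm_ring
    have h5 := congrFun (hv _ hmem) ![c, d]
    rw [hvM, lieA_two, hT] at h5
    have h6 : (A * Bh * M + M * -(Bh * A)) = A * P - D * A := by
      rw [hP, hD]
      noncomm_ring
    rw [h6, Matrix.sub_apply] at h5
    have h7 : (A * P) c d = (D * A) c d := sub_eq_zero.1 h5
    rw [hA, Matrix.add_mul, Matrix.smul_mul, Matrix.add_apply, Matrix.smul_apply, e1, e1, Matrix.mul_add, Matrix.mul_smul,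
      Matrix.add_apply, Matrix.smul_apply, e2, e2] at h7
    exact h7
  have hrel : ∀ (s : ℂ) (i : Fin k), (B i)ᵀ = -s • B i → ∀ a : Fin (n i), ∀ u, Bh ⟨i, a⟩ u = -s * Bh u ⟨i, a⟩ := by
    rintro s i hs a ⟨j, b⟩
    by_cases h : i = j
    · subst h
      rw [hBh, blockDiagonal'_apply_eq, blockDiagonal'_apply_eq]
      exact congrFun (congrFun hs b) a
    · rw [hBne _ _ h, hBne _ _ (fun h' => h h'.symm), mul_zero]
  have hoff : ∀ c x : Σ i, Fin (n i), c ≠ x → D c x = 0 := by
    rintro c ⟨i, a⟩ hc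
    rcases hB1 i with h | ⟨h, h3⟩
    · have h1 := hrel 1 i (by rw [h, neg_one_smul]) a
      have h2 := key 1 (one_mul 1) ⟨i, a⟩ ⟨i, a⟩ rfl h1 h1 c ⟨i, a⟩
      rw [if_neg hc, if_pos rfl] at h2
      linear_combination -h2 / 2
    · have h1 := fun a => hrel (-1) i (by rw [h, neg_neg, one_smul]) a
      obtain ⟨b, hb1, hb2⟩ : ∃ b : Fin (n i), b ≠ a ∧ (⟨i, b⟩ : Σ i, Fin (n i)) ≠ c := by
        by_contra hcon
        push Not at hcon
        have h4 : Fintype.card (Fin (n i)) ≤ 2 := by
          by_cases hci : c.1 = i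
          · obtain ⟨j, c'⟩ := c
            have hji : j = i := hci
            subst hji
            have h5 : (univ : Finset (Fin (n j))) ⊆ {a, c'} := by
              intro b _
              by_cases hba : b = a
              · simp [hba]
              · have h6 := eq_of_heq (Sigma.mk.inj_iff.1 (hcon b hba)).2
                simp [h6]
            exact (card_le_card h5).trans (card_le_two)
          · have h5 : (univ : Finset (Fin (n i))) ⊆ {a} := by
              intro b _
              by_cases hba : b = a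
              · simp [hba]
              · exact absurd (congrArg Sigma.fst (hcon b hba)).symm hci
            exact (card_le_card h5).trans (by simp)
        rw [Fintype.card_fin] at h4
        omega
      have hba : (⟨i, b⟩ : Σ i, Fin (n i)) ≠ ⟨i, a⟩ := fun h4 => hb1 (eq_of_heq (Sigma.mk.inj_iff.1 h4).2)
      have h2 := key (-1) (by ring) ⟨i, a⟩ ⟨i, b⟩ rfl (h1 a) (h1 b) c ⟨i, b⟩
      rw [if_neg hc, if_neg hb2.symm, if_pos rfl, if_neg hba] at h2
      linear_combination -h2
  have hPD : ∀ (i : Fin k) (a b : Fin (n i)), a ≠ b → P ⟨i, b⟩ ⟨i, b⟩ = D ⟨i, a⟩ ⟨i, a⟩ := by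
    intro i a b hab
    have hne : (⟨i, a⟩ : Σ i, Fin (n i)) ≠ ⟨i, b⟩ := fun h4 => hab (eq_of_heq (Sigma.mk.inj_iff.1 h4).2)
    rcases hB1 i with h | ⟨h, h3⟩
    · have h1 := fun a => hrel 1 i (by rw [h, neg_one_smul]) a
      have h2 := key 1 (one_mul 1) ⟨i, a⟩ ⟨i, b⟩ rfl (h1 a) (h1 b) ⟨i, a⟩ ⟨i, b⟩
      rw [if_pos rfl, if_neg hne, if_pos rfl, if_neg hne.symm] at h2
      linear_combination h2
    · have h1 := fun a => hrel (-1) i (by rw [h, neg_neg, one_smul]) a
      have h2 := key (-1) (by ring) ⟨i, a⟩ ⟨i, b⟩ rfl (h1 a) (h1 b) ⟨i, a⟩ ⟨i, b⟩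
      rw [if_pos rfl, if_neg hne, if_pos rfl, if_neg hne.symm] at h2
      linear_combination h2
  have hdiag : ∀ (i : Fin k) (a b : Fin (n i)), D ⟨i, a⟩ ⟨i, a⟩ = D ⟨i, b⟩ ⟨i, b⟩ := by
    intro i a b
    by_cases hab : a = b
    · rw [hab]
    rcases hB1 i with h | ⟨h, h3⟩
    · have h1 := fun a => hrel 1 i (by rw [h, neg_one_smul]) a
      have h2 := key 1 (one_mul 1) ⟨i, b⟩ ⟨i, b⟩ rfl (h1 b) (h1 b) ⟨i, b⟩ ⟨i, b⟩
      rw [if_pos rfl, if_pos rfl] at h2
      rw [← hPD i a b hab]
      linear_combination h2 / 2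
    · obtain ⟨c, hc1, hc2⟩ : ∃ c : Fin (n i), c ≠ a ∧ c ≠ b := by
        by_contra hcon
        push Not at hcon
        have h5 : (univ : Finset (Fin (n i))) ⊆ {a, b} := by
          intro c _
          by_cases hca : c = a
          · simp [hca]
          · simp [hcon c hca]
        have h4 := (card_le_card h5).trans card_le_two
        rw [card_univ, Fintype.card_fin] at h4
        omega
      rw [← hPD i a c hc1.symm, ← hPD i b c hc2.symm]
  set c : Fin k → ℂ := fun i => if h : 0 < n i then D ⟨i, ⟨0, h⟩⟩ ⟨i, ⟨0, h⟩⟩ else 0 with hc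
  have hDc : D = Matrix.diagonal fun x : Σ i, Fin (n i) => c x.1 := by
    ext x y
    by_cases hxy : x = y
    · subst hxy
      obtain ⟨i, a⟩ := x
      have hpos : 0 < n i := a.pos
      rw [Matrix.diagonal_apply_eq, hc]
      simp only [dif_pos hpos]
      exact hdiag i a _
    · rw [Matrix.diagonal_apply_ne _ hxy]
      exact hoff x y hxy
  refine ⟨c, fun p => ?_⟩
  have hinv : Bh * blockDiagonal' (fun i => (B i)⁻¹) = 1 := by
    rw [hBh, ← blockDiagonal'_mul]
    refine Eq.trans (congrArg blockDiagonal' (funext fun i => ?_)) blockDiagonal'_one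
    exact Matrix.mul_nonsing_inv _ (hB2 i)
  have hMD : M = Matrix.diagonal (fun x : Σ i, Fin (n i) => c x.1) * blockDiagonal' (fun i => (B i)⁻¹) := by
    rw [← hDc, hD, Matrix.mul_assoc, hinv, Matrix.mul_one]
  rw [hvM]
  show M (p 0) (p 1) = _
  rw [hMD, Matrix.diagonal_mul]

end

end Q207.GP
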