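import Pool.Agent.Q207.AH.Ct

/-!
# Project GP: the canonical tensor of a subspace
-/

set_option autoImplicit false
set_option linter.unusedSectionVars false

open Matrix Finset

namespace Q207.GP

section

variable {X : Type} [Fintype X] [DecidableEq X]

/-- the complexification of a vector -/
noncomputable abbrev qv {X : Type} (u : X → ℚ) : X → ℂ := fun p => ((u p : ℚ) : ℂ)

/-- the complexification of a subspace -/
noncomputable def cv {X : Type} (U : Submodule ℚ (X → ℚ)) : Submodule ℂ (X → ℂ) := Submodule.span ℂ {x | ∃ u ∈ U, x = qv u}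

/-- the complexification of a matrix -/
noncomputable abbrev qm {X Y : Type} (M : Matrix X Y ℚ) : Matrix X Y ℂ := M.map (algebraMap ℚ ℂ)

omit [DecidableEq X] in
lemma qv_sum {d : ℕ} (y : Fin d → ℚ) (b : Fin d → X → ℚ) : qv (∑ j, y j • b j) = ∑ j, (y j : ℂ) • qv (b j) := by
  funext p
  show (((∑ j, y j • b j : X → ℚ) p : ℚ) : ℂ) = (∑ j, (y j : ℂ) • qv (b j)) p
  simp only [Finset.sum_apply, Pi.smul_apply, smul_eq_mul]
  push_cast
  rfl

omit [DecidableEq X] in
lemma qv_dot (u v : X → ℚ) : qv u ⬝ᵥ qv v = ((u ⬝ᵥ v : ℚ) : ℂ) := by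
  unfold dotProduct
  push_cast
  rfl

omit [DecidableEq X] in
lemma qm_mulVec (M : Matrix X X ℚ) (u : X → ℚ) : qm M *ᵥ qv u = qv (M *ᵥ u) := by
  funext x
  show ∑ y, ((M x y : ℚ) : ℂ) * ((u y : ℚ) : ℂ) = ((∑ y, M x y * u y : ℚ) : ℂ)
  push_cast
  rfl

/-- **The canonical tensor of a subspace on which a form is nondegenerate.** -/
theorem exC (U : Submodule ℚ (X → ℚ)) (Ψ : Matrix X X ℚ) (hnd : ∀ u ∈ U, (∀ v ∈ U, v ⬝ᵥ (Ψ *ᵥ u) = 0) → u = 0) :
    ∃ c : Matrix X X ℚ, (∀ y, (fun x => c x y) ∈ U) ∧ (∀ x, c x ∈ U) ∧ (∀ u ∈ U, c *ᵥ (Ψ *ᵥ u) = u) ∧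
      ∀ L : (X → ℂ) →ₗ[ℂ] (X → ℂ), (∀ u ∈ U, L (qv u) ∈ cv U) →
        (∀ u ∈ U, ∀ v ∈ U, L (qv u) ⬝ᵥ (qm Ψ *ᵥ qv v) + qv u ⬝ᵥ (qm Ψ *ᵥ L (qv v)) = 0) →
        ∀ x y, L (qv fun x' => c x' y) x + L (qv fun y' => c x y') y = 0 := by
  classical
  set d := Module.finrank ℚ U with hd
  set e := Module.finBasis ℚ U with he
  set b : Fin d → X → ℚ := fun j => (e j : X → ℚ) with hb
  have hbU : ∀ j, b j ∈ U := fun j => (e j).2
  have hspan : ∀ u ∈ U, ∃ y : Fin d → ℚ, u = ∑ j, y j • b j := by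
    intro u hu
    refine ⟨fun j => e.repr ⟨u, hu⟩ j, ?_⟩
    have h1 := e.sum_repr ⟨u, hu⟩
    have h2 := congrArg (fun s : U => (s : X → ℚ)) h1
    simp only [Submodule.coe_sum, Submodule.coe_smul] at h2
    exact h2.symm
  have hli : LinearIndependent ℚ b := e.linearIndependent.map' U.subtype (Submodule.ker_subtype U)
  set G : Matrix (Fin d) (Fin d) ℚ := Matrix.of fun j k => b j ⬝ᵥ (Ψ *ᵥ b k) with hG
  have hlin : ∀ (v : X → ℚ) (y : Fin d → ℚ), v ⬝ᵥ (Ψ *ᵥ ∑ k, y k • b k) = ∑ k, y k * (v ⬝ᵥ (Ψ *ᵥ b k)) := by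
    intro v y
    rw [Matrix.mulVec_sum, dotProduct_sum]
    refine sum_congr rfl fun k _ => ?_
    rw [Matrix.mulVec_smul, dotProduct_smul, smul_eq_mul]
  have hGd : IsUnit G.det := by
    rw [isUnit_iff_ne_zero]
    intro h0
    obtain ⟨y, hy, hGy⟩ := Matrix.exists_mulVec_eq_zero_iff.2 h0
    apply hy
    have h1 : (∑ k, y k • b k) = 0 := by
      refine hnd _ (Submodule.sum_mem _ fun k _ => Submodule.smul_mem _ _ (hbU k)) fun v hv => ?_
      obtain ⟨z, rfl⟩ := hspan v hv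
      rw [sum_dotProduct]
      refine sum_eq_zero fun j _ => ?_
      rw [smul_dotProduct, hlin, smul_eq_mul]
      have h2 := congrFun hGy j
      have h3 : (G *ᵥ y) j = ∑ k, y k * (b j ⬝ᵥ (Ψ *ᵥ b k)) := by
        show ∑ k, G j k * y k = _
        exact sum_congr rfl fun k _ => mul_comm _ _
      rw [← h3, h2, Pi.zero_apply, mul_zero]
    exact funext (Fintype.linearIndependent_iff.1 hli y h1)
  have hG1 : G⁻¹ * G = 1 := Matrix.nonsing_inv_mul _ hGd
  have hG2 : G * G⁻¹ = 1 := Matrix.mul_nonsing_inv _ hGd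
  refine ⟨Matrix.of fun x y => ∑ j, ∑ k, b j x * G⁻¹ j k * b k y, fun y => ?_, fun x => ?_, fun u hu => ?_, ?_⟩
  · have h1 : (fun x => (Matrix.of fun x y => ∑ j, ∑ k, b j x * G⁻¹ j k * b k y) x y) =
        ∑ j, (∑ k, G⁻¹ j k * b k y) • b j := by
      funext x
      rw [Finset.sum_apply, Matrix.of_apply]
      refine sum_congr rfl fun j _ => ?_
      rw [Pi.smul_apply, smul_eq_mul, sum_mul]
      exact sum_congr rfl fun k _ => by ring
    rw [h1]
    exact Submodule.sum_mem _ fun j _ => Submodule.smul_mem _ _ (hbU j)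
  · have h1 : (Matrix.of fun x y => ∑ j, ∑ k, b j x * G⁻¹ j k * b k y) x =
        ∑ k, (∑ j, b j x * G⁻¹ j k) • b k := by
      funext y
      rw [Finset.sum_apply, Matrix.of_apply, sum_comm]
      refine sum_congr rfl fun k _ => ?_
      rw [Pi.smul_apply, smul_eq_mul, sum_mul]
    rw [h1]
    exact Submodule.sum_mem _ fun j _ => Submodule.smul_mem _ _ (hbU j)
  · obtain ⟨z, rfl⟩ := hspan u hu
    funext x
    have h1 : ((Matrix.of fun x y => ∑ j, ∑ k, b j x * G⁻¹ j k * b k y) *ᵥ (Ψ *ᵥ ∑ j, z j • b j)) x =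
        ∑ j, b j x * ∑ k, G⁻¹ j k * (b k ⬝ᵥ (Ψ *ᵥ ∑ j, z j • b j)) := by
      show ∑ y, (∑ j, ∑ k, b j x * G⁻¹ j k * b k y) * (Ψ *ᵥ ∑ j, z j • b j) y = _
      simp only [sum_mul, mul_sum, dotProduct]
      rw [sum_comm]
      refine sum_congr rfl fun j _ => ?_
      rw [sum_comm]
      exact sum_congr rfl fun k _ => sum_congr rfl fun y _ => by ring
    rw [h1, Finset.sum_apply]
    refine sum_congr rfl fun j _ => ?_
    rw [Pi.smul_apply, smul_eq_mul, mul_comm (z j)]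
    congr 1
    have h2 : ∀ k, b k ⬝ᵥ (Ψ *ᵥ ∑ j, z j • b j) = (G *ᵥ z) k := by
      intro k
      rw [hlin]
      show _ = ∑ k', G k k' * z k'
      exact sum_congr rfl fun k _ => mul_comm _ _
    simp only [h2]
    have h3 := congrFun (congrArg (fun M => M *ᵥ z) hG1) j
    rw [Matrix.one_mulVec, ← Matrix.mulVec_mulVec] at h3
    exact h3
  · intro L hL hskew x y
    have hLb : ∀ j, ∃ m : Fin d → ℂ, L (qv (b j)) = ∑ l, m l • qv (b l) := by
      intro j
      have h1 := hL _ (hbU j)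
      have h2 : cv U ≤ Submodule.span ℂ (Set.range fun l => qv (b l)) := by
        unfold cv
        rw [Submodule.span_le]
        rintro _ ⟨u, hu, rfl⟩
        obtain ⟨z, rfl⟩ := hspan u hu
        rw [qv_sum]
        exact Submodule.sum_mem _ fun l _ => Submodule.smul_mem _ _ (Submodule.subset_span ⟨l, rfl⟩)
      obtain ⟨m, hm⟩ := (Submodule.mem_span_range_iff_exists_fun ℂ).1 (h2 h1)
      exact ⟨m, hm.symm⟩
    choose m hm using hLb
    set M : Matrix (Fin d) (Fin d) ℂ := Matrix.of fun l j => m j l with hM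
    set Gc : Matrix (Fin d) (Fin d) ℂ := qm G with hGc
    have hGc' : ∀ j k, Gc j k = qv (b j) ⬝ᵥ (qm Ψ *ᵥ qv (b k)) := by
      intro j k
      rw [qm_mulVec, qv_dot]
      rfl
    have hrel : Mᵀ * Gc + Gc * M = 0 := by
      ext j k
      have h1 := hskew _ (hbU j) _ (hbU k)
      rw [hm j, hm k, sum_dotProduct, Matrix.mulVec_sum, dotProduct_sum] at h1
      rw [Matrix.add_apply, Matrix.mul_apply, Matrix.mul_apply, Matrix.zero_apply, ← h1]
      congr 1
      · refine sum_congr rfl fun l _ => ?_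
        rw [smul_dotProduct, smul_eq_mul, hGc']
        rfl
      · refine sum_congr rfl fun l _ => ?_
        rw [Matrix.mulVec_smul, dotProduct_smul, smul_eq_mul, hGc', mul_comm]
        rfl
    set Gi : Matrix (Fin d) (Fin d) ℂ := qm G⁻¹ with hGi
    have hi1 : Gi * Gc = 1 := by
      rw [hGi, hGc, ← Matrix.map_mul, hG1]
      exact Matrix.map_one _ (map_zero _) (map_one _)
    have hi2 : Gc * Gi = 1 := by
      rw [hGi, hGc, ← Matrix.map_mul, hG2]
      exact Matrix.map_one _ (map_zero _) (map_one _)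
    have hrel2 : Gi * Mᵀ + M * Gi = 0 := by
      have h1 : Gi * (Mᵀ * Gc + Gc * M) * Gi = 0 := by rw [hrel, Matrix.mul_zero, Matrix.zero_mul]
      have h2 : Gi * (Mᵀ * Gc + Gc * M) * Gi = Gi * Mᵀ * (Gc * Gi) + (Gi * Gc) * M * Gi := by noncomm_ring
      rw [h2, hi1, hi2, Matrix.mul_one, Matrix.one_mul] at h1
      exact h1
    have e1 : (qv fun x' => ∑ j, ∑ k, b j x' * G⁻¹ j k * b k y) = ∑ j, (∑ k, Gi j k * (b k y : ℂ)) • qv (b j) := by
      funext x'
      rw [Finset.sum_apply]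
      show (((∑ j, ∑ k, b j x' * G⁻¹ j k * b k y : ℚ)) : ℂ) = _
      rw [Rat.cast_sum]
      refine sum_congr rfl fun j _ => ?_
      rw [Rat.cast_sum, Pi.smul_apply, smul_eq_mul, sum_mul]
      refine sum_congr rfl fun k _ => ?_
      rw [Rat.cast_mul, Rat.cast_mul]
      show _ = ((G⁻¹ j k : ℚ) : ℂ) * (b k y : ℂ) * (b j x' : ℂ)
      ring
    have e2 : (qv fun y' => ∑ j, ∑ k, b j x * G⁻¹ j k * b k y') = ∑ k, (∑ j, (b j x : ℂ) * Gi j k) • qv (b k) := by
      funext y'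
      rw [Finset.sum_apply]
      show (((∑ j, ∑ k, b j x * G⁻¹ j k * b k y' : ℚ)) : ℂ) = _
      rw [sum_comm, Rat.cast_sum]
      refine sum_congr rfl fun k _ => ?_
      rw [Rat.cast_sum, Pi.smul_apply, smul_eq_mul, sum_mul]
      refine sum_congr rfl fun j _ => ?_
      rw [Rat.cast_mul, Rat.cast_mul]
      rfl
    have f1 : L (qv fun x' => ∑ j, ∑ k, b j x' * G⁻¹ j k * b k y) x = ∑ l, ∑ k, (b l x : ℂ) * (M * Gi) l k * (b k y : ℂ) := by
      rw [e1, map_sum, Finset.sum_apply]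
      simp only [map_smul, hm, Pi.smul_apply, smul_eq_mul, Finset.sum_apply, Matrix.mul_apply, sum_mul, mul_sum]
      rw [sum_comm]
      refine sum_congr rfl fun l _ => ?_
      rw [sum_comm]
      refine sum_congr rfl fun k _ => sum_congr rfl fun j _ => ?_
      show Gi j k * (b k y : ℂ) * (m j l * (b l x : ℂ)) = (b l x : ℂ) * (m j l * Gi j k) * (b k y : ℂ)
      ring
    have f2 : L (qv fun y' => ∑ j, ∑ k, b j x * G⁻¹ j k * b k y') y = ∑ l, ∑ k, (b l x : ℂ) * (Gi * Mᵀ) l k * (b k y : ℂ) := by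
      rw [e2, map_sum, Finset.sum_apply]
      simp only [map_smul, hm, Pi.smul_apply, smul_eq_mul, Finset.sum_apply, Matrix.mul_apply, sum_mul, mul_sum]
      rw [sum_comm]
      rw [show (∑ l, ∑ k, ∑ j, (b l x : ℂ) * (Gi l j * Mᵀ j k) * (b k y : ℂ)) =
        ∑ k, ∑ l, ∑ j, (b l x : ℂ) * (Gi l j * Mᵀ j k) * (b k y : ℂ) from sum_comm]
      refine sum_congr rfl fun l _ => ?_
      rw [sum_comm]
      refine sum_congr rfl fun k _ => sum_congr rfl fun j _ => ?_
      show (b k x : ℂ) * Gi k j * (m j l * (b l y : ℂ)) = (b k x : ℂ) * (Gi k j * m j l) * (b l y : ℂ)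
      ring
    show L (qv fun x' => ∑ j, ∑ k, b j x' * G⁻¹ j k * b k y) x + L (qv fun y' => ∑ j, ∑ k, b j x * G⁻¹ j k * b k y') y = 0
    rw [f1, f2, ← sum_add_distrib]
    refine sum_eq_zero fun l _ => ?_
    rw [← sum_add_distrib]
    refine sum_eq_zero fun k _ => ?_
    have h5 := congrFun (congrFun hrel2 l) k
    rw [Matrix.add_apply, Matrix.zero_apply] at h5
    linear_combination (b l x : ℂ) * (b k y : ℂ) * h5

end

end Q207.GP
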