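import Pool.Agent.Q207.GP.A

/-!
# Project GP: polynomials in the Hodge operator; the polarisation is nondegenerate on sub-Hodge structures
-/

set_option autoImplicit false
set_option linter.unusedSectionVars false

open Matrix Finset
open scoped MatrixOrder ComplexOrder

namespace Q207.GP

open Q207.HT (lieA lieA_apply)
open Q207.GH (cs kp kp_apply kp_mul kp_conjT kp_diag kp_one Pol gram form_coord Sb)
open Q207.DB (actM actM_apply)

section poly

variable {I : Type} [Fintype I] [DecidableEq I] {κ : Type} [Fintype κ] [DecidableEq κ]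

/-- diagonalisation of the operator -/
theorem aeval_coord {Z Φ : Matrix I I ℂ} {lev : I → ℤ} (hZ : IsUnit Z.det)
    (hZΦ : Z * Φ = Matrix.diagonal (fun a => ((lev a : ℤ) : ℂ)) * Z) (P : Polynomial ℂ) (x : (κ → I) → ℂ) (w : κ → I) :
    actM (fun _ : κ => (Z⁻¹)ᵀ) (Polynomial.aeval (lieA (κ := κ) Φᵀ) P x) w =
      P.eval (((∑ l, lev (w l) : ℤ) : ℂ)) * actM (fun _ : κ => (Z⁻¹)ᵀ) x w := by
  have hZ1 : Z * Z⁻¹ = 1 := Matrix.mul_nonsing_inv _ hZ
  have hZ2 : Z⁻¹ * Z = 1 := Matrix.nonsing_inv_mul _ hZ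
  have h4 : Φ * Z⁻¹ = Z⁻¹ * Matrix.diagonal (fun a => ((lev a : ℤ) : ℂ)) := by
    calc Φ * Z⁻¹ = Z⁻¹ * (Z * Φ) * Z⁻¹ := by rw [← Matrix.mul_assoc, hZ2, Matrix.one_mul]
      _ = Z⁻¹ * Matrix.diagonal (fun a => ((lev a : ℤ) : ℂ)) * (Z * Z⁻¹) := by rw [hZΦ]; simp only [Matrix.mul_assoc]
      _ = _ := by rw [hZ1, Matrix.mul_one]
  have h5 : Matrix.diagonal (fun a => ((lev a : ℤ) : ℂ)) * (Z⁻¹)ᵀ = (Z⁻¹)ᵀ * Φᵀ := by
    have h5 := congrArg Matrix.transpose h4
    rw [Matrix.transpose_mul, Matrix.transpose_mul, Matrix.diagonal_transpose] at h5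
    exact h5.symm
  have h6 : ∀ x : (κ → I) → ℂ, actM (fun _ : κ => (Z⁻¹)ᵀ) (lieA Φᵀ x) w =
      ((∑ l, lev (w l) : ℤ) : ℂ) * actM (fun _ : κ => (Z⁻¹)ᵀ) x w := by
    intro x
    rw [← Pool.Agent.Q195.HT.lieA_actM (fun _ => h5) x, Pool.Agent.Q195.HT.lieA_diagonal]
    push_cast
    rfl
  induction P using Polynomial.induction_on generalizing x with
  | C a =>
    rw [Polynomial.aeval_C, Polynomial.eval_C, Module.algebraMap_end_apply, map_smul, Pi.smul_apply, smul_eq_mul]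
  | add p q hp hq =>
    rw [map_add, LinearMap.add_apply, map_add, Pi.add_apply, hp, hq, Polynomial.eval_add, add_mul]
  | monomial n a ih =>
    rw [pow_succ', show Polynomial.C a * (Polynomial.X * Polynomial.X ^ n) = Polynomial.X * (Polynomial.C a * Polynomial.X ^ n) by ring,
      map_mul, Polynomial.aeval_X, Module.End.mul_apply, h6, ih]
    simp only [Polynomial.eval_mul, Polynomial.eval_X]
    ring

theorem actM_inj {Z : Matrix I I ℂ} (hZ : IsUnit Z.det) {x : (κ → I) → ℂ} (h : actM (fun _ : κ => (Z⁻¹)ᵀ) x = 0) : x = 0 := by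
  have h1 := congrArg (actM (fun _ : κ => Zᵀ)) h
  rw [Q207.DB.actM_comp, map_zero] at h1
  have h2 : (fun _ : κ => Zᵀ * (Z⁻¹)ᵀ) = fun _ => (1 : Matrix I I ℂ) := by
    funext _
    rw [← Matrix.transpose_mul, Matrix.nonsing_inv_mul _ hZ, Matrix.transpose_one]
  rw [h2] at h1
  rw [← h1]
  exact (Q207.DB.actM_one x).symm

variable {H : ℤ → Submodule ℂ (I → ℂ)} (hH : DirectSum.IsInternal H) {Φ : Matrix I I ℂ}
  (hΦ : ∀ p, ∀ v ∈ H p, v ᵥ* Φ = (p : ℂ) • v)
include hH hΦ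

lemma ex_diag : ∃ (Z : Matrix I I ℂ) (lev : I → ℤ), IsUnit Z.det ∧ (∀ a, Z a ∈ H (lev a)) ∧
    Z * Φ = Matrix.diagonal (fun a => ((lev a : ℤ) : ℂ)) * Z := by
  obtain ⟨Z, lev, hZ, hmem⟩ := Pool.Agent.Q195.HT.adaptedI hH
  refine ⟨Z, lev, hZ, hmem, ?_⟩
  ext a b
  rw [Matrix.diagonal_mul]
  exact congrFun (hΦ _ _ (hmem a)) b

/-- the projection to an eigenspace is a polynomial -/
theorem ex_proj (κ : Type) [Fintype κ] [DecidableEq κ] (j : ℤ) : ∃ P : Polynomial ℂ, P.eval (j : ℂ) = 1 ∧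
    ∀ x : (κ → I) → ℂ, lieA Φᵀ (Polynomial.aeval (lieA (κ := κ) Φᵀ) P x) = (j : ℂ) • Polynomial.aeval (lieA (κ := κ) Φᵀ) P x := by
  classical
  obtain ⟨Z, lev, hZ, -, hZΦ⟩ := ex_diag hH hΦ
  set S : Finset ℤ := (univ.image fun w : κ → I => ∑ l, lev (w l)).erase j with hS
  set P : Polynomial ℂ := ∏ m ∈ S, (Polynomial.C ((j : ℂ) - m)⁻¹ * (Polynomial.X - Polynomial.C (m : ℂ))) with hP
  refine ⟨P, ?_, fun x => ?_⟩
  · rw [hP, Polynomial.eval_prod]
    refine prod_eq_one fun m hm => ?_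
    have h1 : (j : ℂ) - m ≠ 0 := by
      rw [sub_ne_zero]
      intro h2
      have h3 : j = m := by exact_mod_cast h2
      exact (Finset.mem_erase.1 hm).1 h3.symm
    rw [Polynomial.eval_mul, Polynomial.eval_C, Polynomial.eval_sub, Polynomial.eval_X, Polynomial.eval_C, inv_mul_cancel₀ h1]
  · rw [← sub_eq_zero]
    refine actM_inj hZ (funext fun w => ?_)
    have h1 : lieA Φᵀ (Polynomial.aeval (lieA (κ := κ) Φᵀ) P x) - (j : ℂ) • Polynomial.aeval (lieA (κ := κ) Φᵀ) P x =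
        Polynomial.aeval (lieA (κ := κ) Φᵀ) ((Polynomial.X - Polynomial.C (j : ℂ)) * P) x := by
      rw [map_mul, map_sub, Polynomial.aeval_X, Polynomial.aeval_C, Module.End.mul_apply, LinearMap.sub_apply,
        Module.algebraMap_end_apply]
    rw [h1, aeval_coord hZ hZΦ, Pi.zero_apply]
    by_cases hw : ∑ l, lev (w l) = j
    · rw [hw, Polynomial.eval_mul, Polynomial.eval_sub, Polynomial.eval_X, Polynomial.eval_C, sub_self, zero_mul, zero_mul]
    · have h2 : ∑ l, lev (w l) ∈ S := Finset.mem_erase.2 ⟨hw, mem_image_of_mem _ (mem_univ w)⟩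
      have h3 : P.eval (((∑ l, lev (w l) : ℤ) : ℂ)) = 0 := by
        rw [hP, Polynomial.eval_prod]
        refine prod_eq_zero h2 ?_
        simp only [Polynomial.eval_mul, Polynomial.eval_C, Polynomial.eval_sub, Polynomial.eval_X, sub_self, mul_zero]
      rw [Polynomial.eval_mul, h3, mul_zero, zero_mul]

end poly

section nd

variable {I : Type} [Fintype I] [DecidableEq I] {q : ℕ}

lemma cs_lie {Φ : Matrix I I ℂ} {U : Submodule ℚ ((Fin q → I) → ℚ)} (hU : Sb Φ U) {x : (Fin q → I) → ℂ} (hx : x ∈ cs U) :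
    lieA Φᵀ x ∈ cs U := by
  refine (Submodule.span_le.2 ?_ : cs U ≤ (cs U).comap (lieA Φᵀ)) hx
  rintro _ ⟨u, hu, rfl⟩
  exact hU u hu

lemma cs_aeval {Φ : Matrix I I ℂ} {U : Submodule ℚ ((Fin q → I) → ℚ)} (hU : Sb Φ U) (P : Polynomial ℂ) {x : (Fin q → I) → ℂ}
    (hx : x ∈ cs U) : Polynomial.aeval (lieA (κ := Fin q) Φᵀ) P x ∈ cs U := by
  induction P using Polynomial.induction_on generalizing x with
  | C a =>
    rw [Polynomial.aeval_C, Module.algebraMap_end_apply]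
    exact Submodule.smul_mem _ _ hx
  | add p q hp hq =>
    rw [map_add, LinearMap.add_apply]
    exact Submodule.add_mem _ (hp hx) (hq hx)
  | monomial n a ih =>
    rw [pow_succ', show Polynomial.C a * (Polynomial.X * Polynomial.X ^ n) = Polynomial.X * (Polynomial.C a * Polynomial.X ^ n) by ring,
      map_mul, Polynomial.aeval_X, Module.End.mul_apply]
    exact cs_lie hU (ih hx)

/-- **The polarisation is nondegenerate on sub-Hodge structures.** -/
theorem nondeg {H : ℤ → Submodule ℂ (I → ℂ)} (hH : DirectSum.IsInternal H) {Φ S : Matrix I I ℂ}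
    (hΦ : ∀ p, ∀ v ∈ H p, v ᵥ* Φ = (p : ℂ) • v) (hS : Pol H S) {U : Submodule ℚ ((Fin q → I) → ℚ)} (hU : Sb Φ U)
    {u : (Fin q → I) → ℚ} (hu : u ∈ U) (h0 : ∀ v ∈ U, qv v ⬝ᵥ (kp q S *ᵥ qv u) = 0) : u = 0 := by
  classical
  obtain ⟨Z, lev, hZ, hmem, hZΦ⟩ := ex_diag hH hΦ
  have hZ1 : Z * Z⁻¹ = 1 := Matrix.mul_nonsing_inv _ hZ
  have hZ2 : Z⁻¹ * Z = 1 := Matrix.nonsing_inv_mul _ hZ
  have hM := gram hS hZ hmem
  set N := Z * S * Zᴴ with hN
  set D := Matrix.diagonal (fun a => Complex.I ^ (lev a)) with hD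
  obtain ⟨B, hB⟩ := CStarAlgebra.nonneg_iff_eq_star_mul_self.mp hM.posSemidef.nonneg
  rw [Matrix.star_eq_conjTranspose] at hB
  have hBd : IsUnit B.det := by
    have h1 : IsUnit (D * N).det := (Matrix.isUnit_iff_isUnit_det _).1 hM.isUnit
    rw [hB, Matrix.det_mul] at h1
    exact isUnit_of_mul_isUnit_right h1
  have h0' : ∀ x ∈ cs U, x ⬝ᵥ (kp q S *ᵥ qv u) = 0 := by
    intro x hx
    unfold cs at hx
    induction hx using Submodule.span_induction with
    | mem x hx =>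
      obtain ⟨v, hv, rfl⟩ := hx
      exact h0 v hv
    | zero => rw [zero_dotProduct]
    | add x y _ _ hx hy => rw [add_dotProduct, hx, hy, add_zero]
    | smul c x _ hx => rw [smul_dotProduct, hx, smul_zero]
  -- the Weil operator
  set T : Finset ℤ := univ.image fun w : Fin q → I => ∑ l, lev (w l) with hT
  set P : Polynomial ℂ := Lagrange.interpolate T (fun m : ℤ => (m : ℂ)) (fun m : ℤ => Complex.I ^ m) with hP
  have hPe : ∀ w : Fin q → I, P.eval (((∑ l, lev (w l) : ℤ) : ℂ)) = Complex.I ^ (∑ l, lev (w l)) := by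
    intro w
    exact Lagrange.eval_interpolate_at_node (fun m : ℤ => Complex.I ^ m) (fun a _ b _ h => by exact_mod_cast h)
      (mem_image_of_mem _ (mem_univ w))
  set x := Polynomial.aeval (lieA (κ := Fin q) Φᵀ) P (qv u) with hx
  have hxU : x ∈ cs U := cs_aeval hU P (Submodule.subset_span ⟨u, hu, rfl⟩)
  have h1 := h0' x hxU
  have hvm : ∀ y : (Fin q → I) → ℂ, y ᵥ* kp q Z⁻¹ = actM (fun _ => (Z⁻¹)ᵀ) y := by
    intro y
    funext w
    rw [actM_apply]
    refine sum_congr rfl fun y _ => ?_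
    rw [mul_comm]
    rfl
  set V := qv u ᵥ* kp q Z⁻¹ with hV
  have hback : ∀ y : (Fin q → I) → ℂ, y = (y ᵥ* kp q Z⁻¹) ᵥ* kp q Z := by
    intro y
    rw [Matrix.vecMul_vecMul, ← kp_mul, hZ2, kp_one, Matrix.vecMul_one]
  have hX : x ᵥ* kp q Z⁻¹ = V ᵥ* kp q D := by
    funext w
    rw [hvm, hx, aeval_coord hZ hZΦ, hPe, ← hvm, hD, kp_diag, Matrix.vecMul_diagonal, mul_comm]
    congr 1
    have h5 : ∀ s : Finset (Fin q), Complex.I ^ (∑ l ∈ s, lev (w l)) = ∏ l ∈ s, Complex.I ^ lev (w l) := by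
      intro s
      induction s using Finset.induction_on with
      | empty => simp
      | insert a s ha ih => rw [prod_insert ha, sum_insert ha, zpow_add₀ Complex.I_ne_zero, ih]
    exact h5 _
  have hstar : qv u = star (qv u) := by
    funext w
    exact (map_ratCast (starRingEnd ℂ) _).symm
  have h2 : x ⬝ᵥ (kp q S *ᵥ qv u) = V ⬝ᵥ (kp q (D * N) *ᵥ star V) := by
    rw [hstar, hback x, hback (qv u), form_coord, ← kp_conjT, ← kp_mul, ← kp_mul, ← hN, hX, ← hV, ← Matrix.dotProduct_mulVec,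
      Matrix.mulVec_mulVec, ← kp_mul]
  have e1 : star (V ᵥ* kp q Bᴴ) = kp q B *ᵥ star V := by
    rw [Matrix.star_vecMul, ← kp_conjT, Matrix.conjTranspose_conjTranspose]
  have e2 : kp q (Bᴴ * B) = kp q Bᴴ * kp q B := kp_mul _ _
  rw [h2, hB, e2, ← Matrix.mulVec_mulVec, Matrix.dotProduct_mulVec, ← e1, dotProduct_self_star_eq_zero] at h1
  have h3 : V = 0 := by
    have h4 : (V ᵥ* kp q Bᴴ) ᵥ* kp q (Bᴴ)⁻¹ = V := by
      rw [Matrix.vecMul_vecMul, ← kp_mul, Matrix.mul_nonsing_inv _ (by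
        rw [Matrix.det_conjTranspose]
        exact hBd.star), kp_one, Matrix.vecMul_one]
    rw [← h4, h1, Matrix.zero_vecMul]
  have h4 : qv u = 0 := by rw [hback (qv u), ← hV, h3, Matrix.zero_vecMul]
  funext w
  have h5 := congrFun h4 w
  have h6 : ((u w : ℚ) : ℂ) = 0 := h5
  exact_mod_cast h6

end nd

end Q207.GP
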