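import Pool.Agent.Q207.GP.B

/-!
# Project GP: matchings
-/

set_option autoImplicit false
set_option linter.unusedSectionVars false

open Matrix Finset

namespace Q207.GP

section

variable {κ : Type} [Fintype κ] [LinearOrder κ] {K : Type} {R : Type} [CommRing R]

/-- the involution of an enumeration of pairs -/
def pm {l : ℕ} (e : (Σ _ : Fin l, Fin 2) ≃ κ) : Equiv.Perm κ :=
  e.symm.trans ((Equiv.sigmaCongrRight fun _ => Fin.revPerm).trans e)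

lemma pm_apply {l : ℕ} (e : (Σ _ : Fin l, Fin 2) ≃ κ) (j : Fin l) (i : Fin 2) : pm e (e ⟨j, i⟩) = e ⟨j, i.rev⟩ := by
  unfold pm
  simp

lemma pm0 {l : ℕ} (e : (Σ _ : Fin l, Fin 2) ≃ κ) (j : Fin l) : pm e (e ⟨j, 0⟩) = e ⟨j, 1⟩ := pm_apply e j 0

lemma pm1 {l : ℕ} (e : (Σ _ : Fin l, Fin 2) ≃ κ) (j : Fin l) : pm e (e ⟨j, 1⟩) = e ⟨j, 0⟩ := pm_apply e j 1

lemma pm_inv {l : ℕ} (e : (Σ _ : Fin l, Fin 2) ≃ κ) (x : κ) : pm e (pm e x) = x := by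
  obtain ⟨⟨j, i⟩, rfl⟩ := e.surjective x
  rw [pm_apply, pm_apply, Fin.rev_rev]

lemma pm_ne {l : ℕ} (e : (Σ _ : Fin l, Fin 2) ≃ κ) (x : κ) : pm e x ≠ x := by
  obtain ⟨⟨j, i⟩, rfl⟩ := e.surjective x
  rw [pm_apply]
  intro h
  have h1 := e.injective h
  have h2 := eq_of_heq (Sigma.mk.inj_iff.1 h1).2
  revert h2
  fin_cases i <;> decide

/-- products over pairs -/
lemma prod_pairs {l : ℕ} (e : (Σ _ : Fin l, Fin 2) ≃ κ) (G : κ → κ → R) :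
    ∏ x ∈ univ.filter (fun x => x < pm e x), G x (pm e x) =
      ∏ j : Fin l, if e ⟨j, 0⟩ < e ⟨j, 1⟩ then G (e ⟨j, 0⟩) (e ⟨j, 1⟩) else G (e ⟨j, 1⟩) (e ⟨j, 0⟩) := by
  rw [prod_filter, ← Equiv.prod_comp e, Fintype.prod_sigma]
  refine prod_congr rfl fun j _ => ?_
  rw [Fin.prod_univ_two, pm0, pm1]
  by_cases h : e ⟨j, 0⟩ < e ⟨j, 1⟩
  · rw [if_pos h, if_neg (not_lt.2 h.le), if_pos h, mul_one]
  · have h2 : e ⟨j, 1⟩ < e ⟨j, 0⟩ := by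
      refine lt_of_le_of_ne (not_lt.1 h) fun h3 => ?_
      have h4 := eq_of_heq (Sigma.mk.inj_iff.1 (e.injective h3)).2
      exact absurd h4 (by decide)
    rw [if_neg h, if_pos h2, if_neg h, one_mul]

lemma prod_all {l : ℕ} (e : (Σ _ : Fin l, Fin 2) ≃ κ) (t : κ → R) :
    ∏ x, t x = ∏ x ∈ univ.filter (fun x => x < pm e x), (t x * t (pm e x)) := by
  rw [prod_pairs e fun x y => t x * t y, ← Equiv.prod_comp e, Fintype.prod_sigma]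
  refine prod_congr rfl fun j _ => ?_
  rw [Fin.prod_univ_two]
  split_ifs
  · rfl
  · exact mul_comm _ _

/-- the product of a form over the pairs of an involution -/
def Fm (C : Matrix K K R) (μ : Equiv.Perm κ) (p : κ → K) : R :=
  ∏ x ∈ univ.filter (fun x => x < μ x), C (p x) (p (μ x))

/-- the pairing of covectors -/
def bt [Fintype K] (C : Matrix K K R) (s t : K → R) : R := ∑ y, ∑ y', s y * t y' * C y y'

/-- **factorisation** -/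
theorem sum_Fm [Fintype K] {l : ℕ} (e : (Σ _ : Fin l, Fin 2) ≃ κ) (C : Matrix K K R) (t : κ → K → R) :
    ∑ p : κ → K, (∏ x, t x (p x)) * Fm C (pm e) p =
      ∏ x ∈ univ.filter (fun x => x < pm e x), bt C (t x) (t (pm e x)) := by
  classical
  have h1 : ∀ p : κ → K, (∏ x, t x (p x)) * Fm C (pm e) p =
      ∏ j : Fin l, (if e ⟨j, 0⟩ < e ⟨j, 1⟩ then t (e ⟨j, 0⟩) (p (e ⟨j, 0⟩)) * t (e ⟨j, 1⟩) (p (e ⟨j, 1⟩)) *
          C (p (e ⟨j, 0⟩)) (p (e ⟨j, 1⟩))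
        else t (e ⟨j, 1⟩) (p (e ⟨j, 1⟩)) * t (e ⟨j, 0⟩) (p (e ⟨j, 0⟩)) * C (p (e ⟨j, 1⟩)) (p (e ⟨j, 0⟩))) := by
    intro p
    rw [prod_all e fun x => t x (p x)]
    unfold Fm
    rw [← prod_mul_distrib]
    exact prod_pairs e fun x y => t x (p x) * t y (p y) * C (p x) (p y)
  rw [sum_congr rfl fun p _ => h1 p, prod_pairs e fun x y => bt C (t x) (t y)]
  have h2 : ∀ j : Fin l, (if e ⟨j, 0⟩ < e ⟨j, 1⟩ then bt C (t (e ⟨j, 0⟩)) (t (e ⟨j, 1⟩)) else bt C (t (e ⟨j, 1⟩)) (t (e ⟨j, 0⟩))) =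
      ∑ y : Fin 2 → K, (if e ⟨j, 0⟩ < e ⟨j, 1⟩ then t (e ⟨j, 0⟩) (y 0) * t (e ⟨j, 1⟩) (y 1) * C (y 0) (y 1)
        else t (e ⟨j, 1⟩) (y 1) * t (e ⟨j, 0⟩) (y 0) * C (y 1) (y 0)) := by
    intro j
    rw [← Equiv.sum_comp (finTwoArrowEquiv K).symm, Fintype.sum_prod_type]
    simp only [finTwoArrowEquiv_symm_apply, Matrix.cons_val_zero, Matrix.cons_val_one]
    unfold bt
    split_ifs
    · rfl
    · rw [sum_comm]
  rw [prod_congr rfl fun j _ => h2 j, Finset.prod_univ_sum, Fintype.piFinset_univ]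
  refine Fintype.sum_equiv ((Equiv.arrowCongr e.symm (Equiv.refl K)).trans (Equiv.piCurry fun (_ : Fin l) (_ : Fin 2) => K)) _ _
    fun p => ?_
  rfl

end

end Q207.GP
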